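import Mathlib
import Pool.Agent.Helper752.HullLower

set_option autoImplicit false

namespace Pool.Agent.Results.MP_497448_gt.NeighbourhoodNotUnique

open scoped ENNReal NNReal
open MeasureTheory Metric Pool.Agent.Helper752

/-- `S` is a connected compact set whose closed `r`-neighbourhood contains `M`. -/
def Covers {d : ℕ} (M : Set (EuclideanSpace ℝ (Fin d))) (r : ℝ)
    (S : Set (EuclideanSpace ℝ (Fin d))) : Prop :=
  IsCompact S ∧ IsConnected S ∧ M ⊆ {x | infDist x S ≤ r}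

/-- `S` is an `r`-minimizer (maximal distance minimizer) for `M`. -/
def IsRMinimizer {d : ℕ} (M : Set (EuclideanSpace ℝ (Fin d))) (r : ℝ)
    (S : Set (EuclideanSpace ℝ (Fin d))) : Prop :=
  Covers M r S ∧ ∀ S' : Set (EuclideanSpace ℝ (Fin d)), Covers M r S' → μH[1] S ≤ μH[1] S'

/-- The horizontal Steiner tree of the square. -/
noncomputable def SA : Set E2 :=
  segment ℝ !₂[-1, 1] !₂[-(1 - √3 / 3), 0] ∪ segment ℝ !₂[-1, -1] !₂[-(1 - √3 / 3), 0]
    ∪ segment ℝ !₂[-(1 - √3 / 3), 0] !₂[1 - √3 / 3, 0]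
    ∪ segment ℝ !₂[1 - √3 / 3, 0] !₂[1, 1] ∪ segment ℝ !₂[1 - √3 / 3, 0] !₂[1, -1]

/-- The vertical Steiner tree of the square. -/
noncomputable def SB : Set E2 :=
  segment ℝ !₂[1, -1] !₂[0, -(1 - √3 / 3)] ∪ segment ℝ !₂[-1, -1] !₂[0, -(1 - √3 / 3)]
    ∪ segment ℝ !₂[0, -(1 - √3 / 3)] !₂[0, 1 - √3 / 3]
    ∪ segment ℝ !₂[0, 1 - √3 / 3] !₂[1, 1] ∪ segment ℝ !₂[0, 1 - √3 / 3] !₂[-1, 1]

theorem sq3_gt : 1.732 < √3 := by
  rw [Real.lt_sqrt (by norm_num)]; norm_num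

theorem compact_segment (a b : E2) : IsCompact (segment ℝ a b) := by
  rw [segment_eq_image_lineMap]
  exact isCompact_Icc.image AffineMap.lineMap_continuous

theorem SA_compact : IsCompact SA :=
  ((((compact_segment _ _).union (compact_segment _ _)).union (compact_segment _ _)).union
    (compact_segment _ _)).union (compact_segment _ _)

theorem SB_compact : IsCompact SB :=
  ((((compact_segment _ _).union (compact_segment _ _)).union (compact_segment _ _)).union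
    (compact_segment _ _)).union (compact_segment _ _)

theorem conn_segment (a b : E2) : IsConnected (segment ℝ a b) :=
  (convex_segment a b).isConnected ⟨a, left_mem_segment ℝ a b⟩

theorem conn_tree (a b c d e f : E2) :
    IsConnected (segment ℝ a e ∪ segment ℝ b e ∪ segment ℝ e f ∪ segment ℝ f c
      ∪ segment ℝ f d) := by
  refine IsConnected.union ⟨f, ?_, left_mem_segment ℝ f d⟩ (IsConnected.union
    ⟨f, ?_, left_mem_segment ℝ f c⟩ (IsConnected.union ⟨e, ?_, left_mem_segment ℝ e f⟩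
    (IsConnected.union ⟨e, right_mem_segment ℝ a e, right_mem_segment ℝ b e⟩
      (conn_segment _ _) (conn_segment _ _)) (conn_segment _ _)) (conn_segment _ _))
      (conn_segment _ _)
  · exact Or.inl (Or.inr (right_mem_segment ℝ e f))
  · exact Or.inr (right_mem_segment ℝ e f)
  · exact Or.inr (right_mem_segment ℝ b e)

theorem len_tree (a b c d e f : E2) (ℓ m : ℝ) (hℓ : 0 ≤ ℓ) (hm : 0 ≤ m) (h1 : dist a e ≤ ℓ)
    (h2 : dist b e ≤ ℓ) (h3 : dist e f ≤ m) (h4 : dist f c ≤ ℓ) (h5 : dist f d ≤ ℓ) :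
    μH[1] (segment ℝ a e ∪ segment ℝ b e ∪ segment ℝ e f ∪ segment ℝ f c
      ∪ segment ℝ f d) ≤ ENNReal.ofReal (4 * ℓ + m) := by
  have e1 : 4 * ℓ + m = ((((ℓ + ℓ) + m) + ℓ) + ℓ) := by ring
  rw [e1, ENNReal.ofReal_add (by positivity) hℓ, ENNReal.ofReal_add (by positivity) hℓ,
    ENNReal.ofReal_add (by positivity) hm, ENNReal.ofReal_add hℓ hℓ]
  have hs : ∀ (a b : E2) (ℓ : ℝ), dist a b ≤ ℓ → μH[1] (segment ℝ a b) ≤ ENNReal.ofReal ℓ := by
    intro a b ℓ h
    rw [hausdorffMeasure_segment, edist_dist]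
    exact ENNReal.ofReal_le_ofReal h
  refine (measure_union_le _ _).trans (add_le_add ?_ (hs _ _ _ h5))
  refine (measure_union_le _ _).trans (add_le_add ?_ (hs _ _ _ h4))
  refine (measure_union_le _ _).trans (add_le_add ?_ (hs _ _ _ h3))
  exact (measure_union_le _ _).trans (add_le_add (hs _ _ _ h1) (hs _ _ _ h2))

theorem dist_le_of (a b c d ℓ : ℝ) (hℓ : 0 ≤ ℓ) (h : (a - c) ^ 2 + (b - d) ^ 2 ≤ ℓ ^ 2) :
    dist (!₂[a, b] : E2) !₂[c, d] ≤ ℓ := by
  rw [EuclideanSpace.dist_eq]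
  apply Real.sqrt_le_iff.2 ⟨hℓ, _⟩
  simpa [Fin.sum_univ_two, Real.dist_eq, sq_abs] using h

theorem SA_len : μH[1] SA ≤ ENNReal.ofReal (2 + 2 * √3) := by
  have h1 := sq3_gt
  have h2 := sq3_lt
  have h3 := sq3
  have h := len_tree !₂[-1, 1] !₂[-1, -1] !₂[1, 1] !₂[1, -1] !₂[-(1 - √3 / 3), 0] !₂[1 - √3 / 3, 0]
    (2 * √3 / 3) (2 - 2 * √3 / 3) (by positivity) (by linarith)
    (dist_le_of _ _ _ _ _ (by positivity) (by nlinarith))
    (dist_le_of _ _ _ _ _ (by positivity) (by nlinarith))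
    (dist_le_of _ _ _ _ _ (by linarith) (by nlinarith))
    (dist_le_of _ _ _ _ _ (by positivity) (by nlinarith))
    (dist_le_of _ _ _ _ _ (by positivity) (by nlinarith))
  have e : 4 * (2 * √3 / 3) + (2 - 2 * √3 / 3) = 2 + 2 * √3 := by ring
  rw [e] at h
  exact h

theorem SB_len : μH[1] SB ≤ ENNReal.ofReal (2 + 2 * √3) := by
  have h1 := sq3_gt
  have h2 := sq3_lt
  have h3 := sq3
  have h := len_tree !₂[1, -1] !₂[-1, -1] !₂[1, 1] !₂[-1, 1] !₂[0, -(1 - √3 / 3)] !₂[0, 1 - √3 / 3]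
    (2 * √3 / 3) (2 - 2 * √3 / 3) (by positivity) (by linarith)
    (dist_le_of _ _ _ _ _ (by positivity) (by nlinarith))
    (dist_le_of _ _ _ _ _ (by positivity) (by nlinarith))
    (dist_le_of _ _ _ _ _ (by linarith) (by nlinarith))
    (dist_le_of _ _ _ _ _ (by positivity) (by nlinarith))
    (dist_le_of _ _ _ _ _ (by positivity) (by nlinarith))
  have e : 4 * (2 * √3 / 3) + (2 - 2 * √3 / 3) = 2 + 2 * √3 := by ring
  rw [e] at h
  exact h

/-- The corners are in the vertical tree. -/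
theorem corner_SB (sx sy : ℝ) (hx : sx = 1 ∨ sx = -1) (hy : sy = 1 ∨ sy = -1) :
    (!₂[sx, sy] : E2) ∈ SB := by
  unfold SB
  rcases hx with rfl | rfl <;> rcases hy with rfl | rfl
  · exact Or.inl (Or.inr (right_mem_segment ℝ _ _))
  · exact Or.inl (Or.inl (Or.inl (Or.inl (left_mem_segment ℝ _ _))))
  · exact Or.inr (right_mem_segment ℝ _ _)
  · exact Or.inl (Or.inl (Or.inl (Or.inr (left_mem_segment ℝ _ _))))

/-- The corners are in the horizontal tree. -/
theorem corner_SA (sx sy : ℝ) (hx : sx = 1 ∨ sx = -1) (hy : sy = 1 ∨ sy = -1) :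
    (!₂[sx, sy] : E2) ∈ SA := by
  unfold SA
  rcases hx with rfl | rfl <;> rcases hy with rfl | rfl
  · exact Or.inl (Or.inr (right_mem_segment ℝ _ _))
  · exact Or.inr (right_mem_segment ℝ _ _)
  · exact Or.inl (Or.inl (Or.inl (Or.inl (left_mem_segment ℝ _ _))))
  · exact Or.inl (Or.inl (Or.inl (Or.inr (left_mem_segment ℝ _ _))))

/-- The condition guaranteeing that the disc of radius `2` about `x` is covered by the four discs
of radius `2` about the corners. -/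
def Good (x : E2) : Prop :=
  |x 0| ≤ 1 ∧ |x 1| ≤ 1 ∧ 2 - x 0 ^ 2 - x 1 ^ 2 ≤ 2 * (1 + √3) * (1 - |x 0|) ∧
    2 - x 0 ^ 2 - x 1 ^ 2 ≤ 2 * (1 + √3) * (1 - |x 1|)

theorem good_of (x : E2) (t : ℝ) (h0 : 0 ≤ t) (_h1 : t ≤ 1) (hx : |x 0| = 1 - t * (√3 / 3))
    (hy : |x 1| = 1 - t) : Good x := by
  have h2 := sq3_lt
  have h3 := sq3
  have h4 := sq3_pos
  have e0 : x 0 ^ 2 = (1 - t * (√3 / 3)) ^ 2 := by rw [← hx, sq_abs]
  have e1 : x 1 ^ 2 = (1 - t) ^ 2 := by rw [← hy, sq_abs]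
  refine ⟨?_, ?_, ?_, ?_⟩
  · rw [hx]; nlinarith [mul_nonneg h0 h4.le]
  · rw [hy]; linarith
  · rw [e0, e1, hx]
    have : 2 * (1 + √3) * (1 - (1 - t * (√3 / 3))) - (2 - (1 - t * (√3 / 3)) ^ 2 - (1 - t) ^ 2)
        = t ^ 2 * (1 + (√3) ^ 2 / 9) + 2 * t * ((√3) ^ 2 / 3 - 1) := by ring
    have h5 : (√3) ^ 2 = 3 := by nlinarith
    rw [h5] at this
    have : 0 ≤ t ^ 2 * (1 + 3 / 9) + 2 * t * ((3 : ℝ) / 3 - 1) := by
      have := sq_nonneg t
      nlinarith
    linarith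
  · rw [e0, e1, hy]
    have : 2 * (1 + √3) * (1 - (1 - t)) - (2 - (1 - t * (√3 / 3)) ^ 2 - (1 - t) ^ 2)
        = t ^ 2 * (1 + (√3) ^ 2 / 9) + t * (4 * √3 / 3) := by ring
    have : 0 ≤ t ^ 2 * (1 + (√3) ^ 2 / 9) + t * (4 * √3 / 3) := by positivity
    linarith

theorem good_SA (x : E2) (hx : x ∈ SA) : Good x := by
  have h1 := sq3_gt
  have h2 := sq3_lt
  have h3 := sq3
  have h4 := sq3_pos
  have key : ∀ s t : ℝ, 0 ≤ s → 0 ≤ t → s + t = 1 → |s + t * (1 - √3 / 3)| = 1 - t * (√3 / 3) := by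
    intro s t hs ht hst
    have : s + t * (1 - √3 / 3) = 1 - t * (√3 / 3) := by
      have : s = 1 - t := by linarith
      rw [this]; ring
    rw [this, abs_of_nonneg]
    nlinarith
  rcases hx with (((⟨s, t, hs, ht, hst, rfl⟩ | ⟨s, t, hs, ht, hst, rfl⟩) |
    ⟨s, t, hs, ht, hst, rfl⟩) | ⟨s, t, hs, ht, hst, rfl⟩) | ⟨s, t, hs, ht, hst, rfl⟩
  · refine good_of _ t ht (by linarith) ?_ ?_
    · have e : (s • (!₂[-1, 1] : E2) + t • (!₂[-(1 - √3 / 3), 0] : E2)) 0
          = -(s + t * (1 - √3 / 3)) := by simp; ring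
      rw [e, abs_neg, key s t hs ht hst]
    · have e : (s • (!₂[-1, 1] : E2) + t • (!₂[-(1 - √3 / 3), 0] : E2)) 1 = 1 - t := by
        simp; linarith
      rw [e, abs_of_nonneg (by linarith)]
  · refine good_of _ t ht (by linarith) ?_ ?_
    · have e : (s • (!₂[-1, -1] : E2) + t • (!₂[-(1 - √3 / 3), 0] : E2)) 0
          = -(s + t * (1 - √3 / 3)) := by simp; ring
      rw [e, abs_neg, key s t hs ht hst]
    · have e : (s • (!₂[-1, -1] : E2) + t • (!₂[-(1 - √3 / 3), 0] : E2)) 1 = -(1 - t) := by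
        simp; linarith
      rw [e, abs_neg, abs_of_nonneg (by linarith)]
  · have e0 : (s • (!₂[-(1 - √3 / 3), 0] : E2) + t • (!₂[1 - √3 / 3, 0] : E2)) 0
        = (t - s) * (1 - √3 / 3) := by simp; ring
    have e1 : (s • (!₂[-(1 - √3 / 3), 0] : E2) + t • (!₂[1 - √3 / 3, 0] : E2)) 1 = 0 := by simp
    have e2 : |(t - s) * (1 - √3 / 3)| ≤ 1 - √3 / 3 := by
      rw [abs_mul, abs_of_nonneg (a := 1 - √3 / 3) (by linarith)]
      have : |t - s| ≤ 1 := by rw [abs_le]; constructor <;> linarith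
      nlinarith
    unfold Good
    rw [e0, e1]
    simp only [abs_zero, sub_zero, mul_one]
    set u := (t - s) * (1 - √3 / 3)
    refine ⟨?_, zero_le_one, ?_, ?_⟩
    · linarith
    · nlinarith [sq_nonneg u, mul_nonneg (sub_nonneg.2 e2) h4.le]
    · nlinarith [sq_nonneg u]
  · refine good_of _ s hs (by linarith) ?_ ?_
    · have e : (s • (!₂[1 - √3 / 3, 0] : E2) + t • (!₂[1, 1] : E2)) 0
          = (t + s * (1 - √3 / 3)) := by simp; ring
      rw [e, key t s ht hs (by linarith)]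
    · have e : (s • (!₂[1 - √3 / 3, 0] : E2) + t • (!₂[1, 1] : E2)) 1 = 1 - s := by
        simp; linarith
      rw [e, abs_of_nonneg (by linarith)]
  · refine good_of _ s hs (by linarith) ?_ ?_
    · have e : (s • (!₂[1 - √3 / 3, 0] : E2) + t • (!₂[1, -1] : E2)) 0
          = (t + s * (1 - √3 / 3)) := by simp; ring
      rw [e, key t s ht hs (by linarith)]
    · have e : (s • (!₂[1 - √3 / 3, 0] : E2) + t • (!₂[1, -1] : E2)) 1 = -(1 - s) := by
        simp; linarith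
      rw [e, abs_neg, abs_of_nonneg (by linarith)]

theorem far_sum (a b : ℝ) (ha : 0 ≤ a) (hb : 0 ≤ b) (h : 4 < (a - 1) ^ 2 + (b - 1) ^ 2) :
    1 + √3 ≤ a + b := by
  have h2 := sq3_gt
  have h3 := sq3
  by_contra hlt
  push Not at hlt
  have h5 : (a + b - 1) ^ 2 < (√3) ^ 2 := sq_lt_sq' (by linarith) (by linarith)
  have h6 := mul_nonneg ha hb
  have e : (a - 1) ^ 2 + (b - 1) ^ 2 = (a + b - 1) ^ 2 + 1 - 2 * (a * b) := by ring
  linarith

/-- Every point at distance at most `2` from a good point is at distance at most `2` from a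
corner. -/
theorem near_corner (x y : E2) (hx : Good x) (h : dist y x ≤ 2) :
    ∃ sx sy : ℝ, (sx = 1 ∨ sx = -1) ∧ (sy = 1 ∨ sy = -1) ∧ dist y !₂[sx, sy] ≤ 2 := by
  obtain ⟨h0, h1, h2, h3⟩ := hx
  have hs : ∀ a : ℝ, ∃ s : ℝ, (s = 1 ∨ s = -1) ∧ (a - s) ^ 2 = (|a| - 1) ^ 2 := by
    intro a
    rcases le_total 0 a with ha | ha
    · exact ⟨1, Or.inl rfl, by rw [abs_of_nonneg ha]⟩
    · exact ⟨-1, Or.inr rfl, by rw [abs_of_nonpos ha]; ring⟩
  obtain ⟨sx, hsx, ex⟩ := hs (y 0)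
  obtain ⟨sy, hsy, ey⟩ := hs (y 1)
  refine ⟨sx, sy, hsx, hsy, ?_⟩
  rw [EuclideanSpace.dist_eq, Real.sqrt_le_left (by norm_num)] at h ⊢
  simp only [Fin.sum_univ_two, Real.dist_eq, sq_abs] at h ⊢
  have e : (y 0 - (!₂[sx, sy] : E2) 0) ^ 2 + (y 1 - (!₂[sx, sy] : E2) 1) ^ 2
      = (|y 0| - 1) ^ 2 + (|y 1| - 1) ^ 2 := by
    rw [← ex, ← ey]; simp
  rw [e]
  by_contra hlt
  push Not at hlt
  have hab := far_sum (|y 0|) (|y 1|) (abs_nonneg _) (abs_nonneg _) (by linarith)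
  have k0 : y 0 * x 0 ≤ |y 0| * |x 0| := by rw [← abs_mul]; exact le_abs_self _
  have k1 : y 1 * x 1 ≤ |y 1| * |x 1| := by rw [← abs_mul]; exact le_abs_self _
  have q0 : |y 0| ^ 2 = y 0 ^ 2 := sq_abs _
  have q1 : |y 1| ^ 2 = y 1 ^ 2 := sq_abs _
  have a0 := abs_nonneg (y 0)
  have a1 := abs_nonneg (y 1)
  have h4 := sq3_pos
  set a := |y 0|
  set b := |y 1|
  set c := |x 0|
  set d := |x 1|
  have hm : 2 - x 0 ^ 2 - x 1 ^ 2 ≤ 2 * (a * (1 - c) + b * (1 - d)) := by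
    rcases le_total c d with hcd | hcd
    · have k : a * (1 - d) ≤ a * (1 - c) := mul_le_mul_of_nonneg_left (by linarith) a0
      have : (1 + √3) * (1 - d) ≤ (a + b) * (1 - d) :=
        mul_le_mul_of_nonneg_right hab (by linarith)
      linarith
    · have k : b * (1 - c) ≤ b * (1 - d) := mul_le_mul_of_nonneg_left (by linarith) a1
      have : (1 + √3) * (1 - c) ≤ (a + b) * (1 - c) :=
        mul_le_mul_of_nonneg_right hab (by linarith)
      linarith
  have e1 : (y 0 - x 0) ^ 2 + (y 1 - x 1) ^ 2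
      = y 0 ^ 2 + y 1 ^ 2 - 2 * (y 0 * x 0) - 2 * (y 1 * x 1) + x 0 ^ 2 + x 1 ^ 2 := by ring
  have e2 : (a - 1) ^ 2 + (b - 1) ^ 2 = a ^ 2 + b ^ 2 - 2 * a - 2 * b + 2 := by ring
  rw [e1] at h
  rw [e2, q0, q1] at hlt
  linarith

theorem nbhd_mem {S : Set E2} (hc : IsCompact S) (hn : S.Nonempty) {y : E2} {r : ℝ}
    (h : infDist y S ≤ r) : ∃ x ∈ S, dist y x ≤ r := by
  obtain ⟨x, hx, hd⟩ := hc.exists_infDist_eq_dist hn y
  exact ⟨x, hx, hd ▸ h⟩

theorem nbhd_of_mem {S : Set E2} {x y : E2} {r : ℝ} (hx : x ∈ S) (h : dist y x ≤ r) :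
    infDist y S ≤ r := (infDist_le_dist_of_mem hx).trans h

/-- the horizontal tree is nonempty and connected -/
theorem SA_conn : IsConnected SA := conn_tree _ _ _ _ _ _

theorem SB_conn : IsConnected SB := conn_tree _ _ _ _ _ _

/-- The compact set `M`: the closed `2`-neighbourhood of the horizontal tree. -/
def MM : Set E2 := {x | infDist x SA ≤ 2}

theorem MM_compact : IsCompact MM := by
  apply Metric.isCompact_of_isClosed_isBounded
  · exact isClosed_le (continuous_infDist_pt _) continuous_const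
  · have h : MM ⊆ cthickening 2 SA := by
      intro x hx
      obtain ⟨w, hw, hd⟩ := nbhd_mem SA_compact SA_conn.nonempty hx
      exact mem_cthickening_of_dist_le x w 2 SA hw hd
    exact SA_compact.isBounded.cthickening.subset h

theorem coversA : Covers MM 2 SA := ⟨SA_compact, SA_conn, fun _ hx => hx⟩

theorem coversB : Covers MM 2 SB := by
  refine ⟨SB_compact, SB_conn, ?_⟩
  intro y hy
  obtain ⟨x, hx, hd⟩ := nbhd_mem SA_compact SA_conn.nonempty hy
  obtain ⟨sx, sy, hsx, hsy, hd'⟩ := near_corner x y (good_SA x hx) hd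
  exact nbhd_of_mem (corner_SB sx sy hsx hsy) hd'

/-- Lower bound: any connected compact set whose closed `2`-neighbourhood contains `MM` has
length at least `2 + 2 √3`. -/
theorem lower (S : Set E2) (h : Covers MM 2 S) : ENNReal.ofReal (2 + 2 * √3) ≤ μH[1] S := by
  obtain ⟨hc, hS, hM⟩ := h
  refine Hull.hull_lower hc hS ?_
  intro sx sy hsx hsy P Q hP hQ
  have hsx2 : sx ^ 2 = 1 := by rcases hsx with rfl | rfl <;> norm_num
  have hsy2 : sy ^ 2 = 1 := by rcases hsy with rfl | rfl <;> norm_num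
  rcases eq_or_lt_of_le (Real.sqrt_nonneg (P ^ 2 + Q ^ 2)) with h0 | h0
  · have h1 : P ^ 2 + Q ^ 2 = 0 := by
      have := Real.sqrt_eq_zero'.1 h0.symm
      nlinarith [sq_nonneg P, sq_nonneg Q]
    have hP0 : P = 0 := by nlinarith [sq_nonneg P, sq_nonneg Q]
    have hQ0 : Q = 0 := by nlinarith [sq_nonneg P, sq_nonneg Q]
    obtain ⟨p, hp⟩ := hS.nonempty
    exact ⟨p, hp, by rw [hP0, hQ0]; simp⟩
  · set N := √(P ^ 2 + Q ^ 2) with hN
    have hN2 : N ^ 2 = P ^ 2 + Q ^ 2 := by rw [hN, Real.sq_sqrt (by positivity)]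
    have hN0 : N ≠ 0 := h0.ne'
    have hy : (!₂[sx + 2 * (sx * P / N), sy + 2 * (sy * Q / N)] : E2) ∈ MM := by
      refine nbhd_of_mem (corner_SA sx sy hsx hsy) ?_
      apply dist_le_of _ _ _ _ _ (by norm_num)
      have e : (sx + 2 * (sx * P / N) - sx) ^ 2 + (sy + 2 * (sy * Q / N) - sy) ^ 2
          = 4 * (sx ^ 2 * P ^ 2 + sy ^ 2 * Q ^ 2) / N ^ 2 := by
        field_simp
        ring
      rw [e, hsx2, hsy2, hN2]
      have : P ^ 2 + Q ^ 2 ≠ 0 := by rw [← hN2]; positivity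
      rw [one_mul, one_mul, mul_div_assoc, div_self this]
      norm_num
    obtain ⟨p, hpS, hpd⟩ := nbhd_mem hc hS.nonempty (hM hy)
    refine ⟨p, hpS, ?_⟩
    -- `⟨p - z, (sx P, sy Q)⟩ ≥ 0`
    rw [EuclideanSpace.dist_eq, Real.sqrt_le_left (by norm_num)] at hpd
    simp only [Fin.sum_univ_two, Real.dist_eq, sq_abs] at hpd
    have hpd' : (p 0 - sx - 2 * (sx * P / N)) ^ 2 + (p 1 - sy - 2 * (sy * Q / N)) ^ 2 ≤ 4 := by
      refine le_trans (le_of_eq ?_) (hpd.trans (by norm_num))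
      simp
      ring
    set X := sx * p 0 - 1 with hX
    set Y := sy * p 1 - 1 with hY
    have e0 : p 0 - sx - 2 * (sx * P / N) = sx * (X - 2 * (P / N)) := by
      rw [hX]
      have : sx * (sx * p 0 - 1 - 2 * (P / N)) = sx ^ 2 * p 0 - sx - 2 * (sx * P / N) := by ring
      rw [this, hsx2]; ring
    have e1 : p 1 - sy - 2 * (sy * Q / N) = sy * (Y - 2 * (Q / N)) := by
      rw [hY]
      have : sy * (sy * p 1 - 1 - 2 * (Q / N)) = sy ^ 2 * p 1 - sy - 2 * (sy * Q / N) := by ring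
      rw [this, hsy2]; ring
    rw [e0, e1, mul_pow, mul_pow, hsx2, hsy2, one_mul, one_mul] at hpd'
    have hPQ : (P / N) ^ 2 + (Q / N) ^ 2 = 1 := by
      rw [div_pow, div_pow, ← add_div, ← hN2, div_self (by positivity)]
    have h5 : 0 ≤ (P / N) * X + (Q / N) * Y := by
      nlinarith [sq_nonneg X, sq_nonneg Y]
    have h6 : P * X + Q * Y = N * ((P / N) * X + (Q / N) * Y) := by
      field_simp
    rw [h6]
    exact mul_nonneg h0.le h5

theorem SA_ne_SB : SB ≠ SA := by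
  intro h
  have h1 := sq3_gt
  have h2 := sq3_lt
  have hm : (!₂[1 - √3 / 3, 0] : E2) ∈ SA :=
    Or.inl (Or.inl (Or.inr (right_mem_segment ℝ _ _)))
  rw [← h] at hm
  have hup : ∀ a b : E2, 0 < a 1 → 0 < b 1 → ∀ x ∈ segment ℝ a b, 0 < x 1 := by
    rintro a b ha hb x ⟨s, t, hs, ht, hst, rfl⟩
    simp only [PiLp.add_apply, PiLp.smul_apply, smul_eq_mul]
    rcases eq_or_lt_of_le hs with h0 | h0
    · have : t = 1 := by linarith
      subst this; rw [← h0]; linarith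
    · nlinarith
  have hdn : ∀ a b : E2, a 1 < 0 → b 1 < 0 → ∀ x ∈ segment ℝ a b, x 1 < 0 := by
    rintro a b ha hb x ⟨s, t, hs, ht, hst, rfl⟩
    simp only [PiLp.add_apply, PiLp.smul_apply, smul_eq_mul]
    rcases eq_or_lt_of_le hs with h0 | h0
    · have : t = 1 := by linarith
      subst this; rw [← h0]; linarith
    · nlinarith
  have hmid : ∀ a b : E2, a 0 = 0 → b 0 = 0 → ∀ x ∈ segment ℝ a b, x 0 = 0 := by
    rintro a b ha hb x ⟨s, t, hs, ht, hst, rfl⟩
    simp only [PiLp.add_apply, PiLp.smul_apply, smul_eq_mul, ha, hb, mul_zero, add_zero]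
  rcases hm with (((hm | hm) | hm) | hm) | hm
  · have := hdn _ _ (by simp) (by simp; linarith) _ hm
    simp at this
  · have := hdn _ _ (by simp) (by simp; linarith) _ hm
    simp at this
  · have := hmid _ _ (by simp) (by simp) _ hm
    simp at this
    linarith
  · have := hup _ _ (by simp; linarith) (by simp) _ hm
    simp at this
  · have := hup _ _ (by simp; linarith) (by simp) _ hm
    simp at this

/-- There are a compact set `M` in the plane, a radius `r > 0`, an `r`-minimizer `S₁` for `M`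
(of positive length) and an `r`-minimizer `S₂ ≠ S₁` for the closed `r`-neighbourhood of `S₁`. -/
theorem result : ∃ (M : Set (EuclideanSpace ℝ (Fin 2))) (r : ℝ)
    (S₁ S₂ : Set (EuclideanSpace ℝ (Fin 2))),
    IsCompact M ∧ 0 < r ∧ IsRMinimizer M r S₁ ∧ 0 < μH[1] S₁ ∧
    IsCompact {x | infDist x S₁ ≤ r} ∧ IsRMinimizer {x | infDist x S₁ ≤ r} r S₂ ∧ S₂ ≠ S₁ := by
  refine ⟨MM, 2, SA, SB, MM_compact, by norm_num,
    ⟨coversA, fun S hS => SA_len.trans (lower S hS)⟩, ?_, MM_compact,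
    ⟨coversB, fun S hS => SB_len.trans (lower S hS)⟩, SA_ne_SB⟩
  refine lt_of_lt_of_le ?_ (lower SA coversA)
  rw [ENNReal.ofReal_pos]
  positivity

end Pool.Agent.Results.MP_497448_gt.NeighbourhoodNotUnique
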